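import Pool.Agent.Helper92.CD.Main
import Pool.Agent.Helper92.CD.Grp
import Pool.Agent.Helper92.CD.Ex

/-!
# `p`-groups with two character degrees and two class sizes

Let `p` be a prime and `a, b > 0`. The pair `({1, p ^ a}, {1, p ^ b})` is realizable if and only if `b ≤ a` or
`b = 2 a`. Moreover, if `P` is a finite `p`-group with `cd(P) = {1, p ^ a}` and `cs(P) = {1, p ^ b}`, then

* `b = 2 a` and `|P : P'| = |Z(P)|`, or
* `b ≤ a`, `|P : Z(P)| = p ^ (2 a)`, `|P'| = p ^ b`, `P' ≤ Z(P)`, and the class of every noncentral element `x`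
  is the coset `x P'`.

Proof. Let `|P| = p ^ n`, `|P : P'| = p ^ ρ`, `|Z(P)| = p ^ ζ` and `k = |Irr(P)|`. Counting the squares of the
degrees gives `p ^ n - p ^ ρ = (k - p ^ ρ) p ^ (2 a)`, counting the classes gives
`p ^ n - p ^ ζ = (k - p ^ ζ) p ^ b`. Put `e = n - ρ`, `f = n - ζ`. Then `p ^ (2 a)` divides
`p ^ ρ (p ^ e - 1)`, so `ρ = 2 a + t` and `k = p ^ t (p ^ (2 a) + p ^ e - 1)`; in the same way `ζ = b + s` and
`k = p ^ s (p ^ b + p ^ f - 1)`. The brackets are prime to `p`, so `s = t` and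
`p ^ (2 a) + p ^ e = p ^ b + p ^ f`, with the same product `p ^ (n - t)` on both sides. So `2 a = b` and
`e = f`, or `2 a = f` and `e = b`.
In the second case `|P'| = p ^ b` is the size of all noncentral classes, so they are the cosets `x P'`, `P'` is
central, `P / Z(P)` and `P'` are elementary abelian, and for every nonzero functional `λ` of `P'` the alternating
form `λ([x, y])` on `P / Z(P)` is nondegenerate. Its Pfaffian is a polynomial of degree `a` in the `b`
coordinates of `λ` with only the trivial zero, and `b ≤ a` by the theorem of Chevalley and Warning.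
Examples: let `K` be the field with `p ^ a` elements. For `b ≤ a` take the group on `K² × 𝔽_p ^ b` with
commutator `L (x y' - x' y)`, `L : K → 𝔽_p ^ b` linear and onto; for `b = 2 a` the group on `K³ × K³` whose
commutator is the cross product. The class sizes are clear; the squares of the nonlinear degrees are at least
`p ^ (2 a)`, and counting shows that they are equal to it.
-/

set_option autoImplicit false

noncomputable section

namespace Pool.Agent.Results.MP_e0d3d5_al.TwoByTwo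

/-- `χ` is the character of an irreducible complex representation of `G`. -/
def IsIrr {G : Type} [Group G] (χ : G → ℂ) : Prop :=
  ∃ (V : Type) (_ : AddCommGroup V) (_ : Module ℂ V) (_ : FiniteDimensional ℂ V)
    (ρ : Representation ℂ G V), ρ.IsIrreducible ∧ χ = ρ.character

/-- The set of the degrees of the irreducible complex characters of `P`. -/
def cd (P : Type) [Group P] : Set ℕ := {d | ∃ χ : P → ℂ, IsIrr χ ∧ χ 1 = (d : ℂ)}

/-- The set of the sizes `|P : C_P(x)|` of the conjugacy classes of `P`. -/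
def cs (P : Type) [Group P] : Set ℕ := {m | ∃ x : P, (Subgroup.centralizer {x}).index = m}

/-- `(A, B)` is realizable: some finite `p`-group `P` has `cd(P) = A` and `cs(P) = B`. -/
def Realizable (p : ℕ) (A B : Set ℕ) : Prop :=
  ∃ (P : Type) (_ : Group P), Finite P ∧ IsPGroup p P ∧ cd P = A ∧ cs P = B

theorem necessary (p : ℕ) (hp : p.Prime) (P : Type) [Group P] [Finite P] (hP : IsPGroup p P)
    (a b : ℕ) (ha : 0 < a) (hb : 0 < b) (hcd : cd P = {1, p ^ a}) (hcs : cs P = {1, p ^ b}) :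
    (b = 2 * a ∧ (commutator P).index = Nat.card (Subgroup.center P)) ∨
      (b ≤ a ∧ (Subgroup.center P).index = p ^ (2 * a) ∧ Nat.card (commutator P) = p ^ b ∧
        commutator P ≤ Subgroup.center P ∧
        ∀ x : P, x ∉ Subgroup.center P →
          {z : P | IsConj x z} = {z : P | ∃ c ∈ commutator P, z = x * c}) := by
  have : Fintype P := Fintype.ofFinite P
  have h1 : ∀ χ ∈ Pool.Agent.Helper884.IC.Irr P, Pool.Agent.K3h3.KB.ndeg χ = 1 ∨
      Pool.Agent.K3h3.KB.ndeg χ = p ^ a := by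
    intro χ hχ
    have h2 := Pool.Agent.Helper884.IC.mem_Irr.mp hχ
    have h3 : Pool.Agent.K3h3.KB.ndeg χ ∈ cd P :=
      ⟨χ, h2, (Pool.Agent.K3h3.KB.ndeg_cast h2).symm⟩
    rw [hcd] at h3
    exact h3
  have h2 : ∀ x : P, (Subgroup.centralizer ({x} : Set P)).index = 1 ∨
      (Subgroup.centralizer ({x} : Set P)).index = p ^ b := by
    intro x
    have h3 : (Subgroup.centralizer ({x} : Set P)).index ∈ cs P := ⟨x, rfl⟩
    rw [hcs] at h3
    exact h3
  have h3 : p ^ b ∈ cs P := by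
    rw [hcs]
    exact Or.inr rfl
  rcases Pool.Agent.Helper92.CD.main hp hP ha hb h1 h2 h3 with h | ⟨-, h5, h6, h7, h8⟩
  · exact Or.inl h
  · refine Or.inr ⟨Pool.Agent.Helper92.CD.bound_grp hp ha hb h7 h5 h6 h8, h6, h5, h7, ?_⟩
    intro x hx
    ext z
    constructor
    · intro h
      obtain ⟨y, hy⟩ := isConj_iff.mp h
      refine ⟨x⁻¹ * z, ?_, by group⟩
      rw [← hy]
      have h9 := Pool.Agent.Helper92.CD.cmem x⁻¹ y
      rw [commutatorElement_def] at h9
      have h10 : x⁻¹ * (y * x * y⁻¹) = x⁻¹ * y * x⁻¹⁻¹ * y⁻¹ := by group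
      rw [h10]
      exact h9
    · rintro ⟨c, hc, rfl⟩
      obtain ⟨y, hy⟩ := h8 x hx c hc
      exact isConj_iff.mpr ⟨y, hy⟩

theorem sufficient (p : ℕ) (hp : p.Prime) (a b : ℕ) (ha : 0 < a) (hb : 0 < b)
    (hab : b ≤ a ∨ b = 2 * a) : Realizable p {1, p ^ a} {1, p ^ b} := by
  have : Fact p.Prime := ⟨hp⟩
  obtain ⟨V, W, _, _, _, _, f, n, m, hn, hm, hV, hW, H1, H2, H5⟩ :
      ∃ (V W : Type) (_ : AddCommGroup V) (_ : AddCommGroup W) (_ : Finite V) (_ : Finite W)
        (f : V →+ V →+ W) (n m : ℕ), 0 < n ∧ 0 < m ∧ Nat.card V = p ^ n ∧ Nat.card W = p ^ m ∧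
        (∀ v : V, v ≠ 0 → Nat.card {v' : V // f v v' = f v' v} * p ^ b = Nat.card V) ∧
        (∀ N : AddSubgroup W, N ≠ ⊤ →
          Nat.card {v : V // ∀ v', f v' v - f v v' ∈ N} * p ^ (2 * a) ≤ Nat.card V) ∧
        (p ^ (2 * a) * (p ^ m * p ^ b + p ^ n * p ^ m) + p ^ b * p ^ n =
          p ^ b * (p ^ n * p ^ m) + p ^ (2 * a) * (p ^ m + p ^ n * p ^ b)) := by
    rcases hab with h | h
    · exact Pool.Agent.Helper92.CD.ex1 ha hb h
    · exact Pool.Agent.Helper92.CD.ex2 ha h
  obtain ⟨h1, ⟨χ1, h2, h3⟩, ⟨χ2, h4, h5⟩, h6, ⟨x1, h7⟩, ⟨x2, h8⟩⟩ :=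
    Pool.Agent.Helper92.CD.realize hp ha hb hn hm hV hW H1 H2 H5
  refine ⟨Pool.Agent.Helper92.CD.HG f, inferInstance, inferInstance, ?_, ?_, ?_⟩
  · refine IsPGroup.of_card (n := n + m) ?_
    rw [Pool.Agent.Helper92.CD.card_HG, hV, hW, pow_add]
  · ext d
    constructor
    · rintro ⟨χ, hχ, hd⟩
      have h9 : Pool.Agent.K3h3.KB.ndeg χ = d := Pool.Agent.K3h3.KB.ndeg_eq hd.symm
      rw [← h9]
      exact h1 χ hχ
    · rintro (rfl | rfl)
      · refine ⟨χ1, h2, ?_⟩
        have h9 := Pool.Agent.K3h3.KB.ndeg_cast h2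
        rw [h3] at h9
        exact h9.symm
      · refine ⟨χ2, h4, ?_⟩
        have h9 := Pool.Agent.K3h3.KB.ndeg_cast h4
        rw [h5] at h9
        exact h9.symm
  · ext d
    constructor
    · rintro ⟨x, rfl⟩
      exact h6 x
    · rintro (rfl | rfl)
      · exact ⟨x1, h7⟩
      · exact ⟨x2, h8⟩

theorem result (p : ℕ) (hp : p.Prime) (a b : ℕ) (ha : 0 < a) (hb : 0 < b) :
    (Realizable p {1, p ^ a} {1, p ^ b} ↔ b ≤ a ∨ b = 2 * a) ∧
      ∀ (P : Type) [Group P] [Finite P], IsPGroup p P → cd P = {1, p ^ a} →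
        cs P = {1, p ^ b} →
        (b = 2 * a ∧ (commutator P).index = Nat.card (Subgroup.center P)) ∨
          (b ≤ a ∧ (Subgroup.center P).index = p ^ (2 * a) ∧
            Nat.card (commutator P) = p ^ b ∧ commutator P ≤ Subgroup.center P ∧
            ∀ x : P, x ∉ Subgroup.center P →
              {z : P | IsConj x z} = {z : P | ∃ c ∈ commutator P, z = x * c}) := by
  refine ⟨⟨?_, sufficient p hp a b ha hb⟩, ?_⟩
  · rintro ⟨P, _, _, hP, hcd, hcs⟩
    rcases necessary p hp P hP a b ha hb hcd hcs with h | h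
    · exact Or.inr h.1
    · exact Or.inl h.1
  · intro P _ _ hP hcd hcs
    exact necessary p hp P hP a b ha hb hcd hcs

end Pool.Agent.Results.MP_e0d3d5_al.TwoByTwo
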